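import Pool.Agent.Run7.h378.PS.Stm

/-!
# Project PS, piece D: degrees in a sum of squares
-/

set_option autoImplicit false

namespace Run7.h642.PS

open MvPolynomial Run7.h378.PS

theorem comp_sq {v M : ℕ} (hM : 0 < M) (q : MvPolynomial (Fin v) ℝ) (hq : q.totalDegree ≤ M) :
    homogeneousComponent (2 * M) (q ^ 2) = (homogeneousComponent M q) ^ 2 := by
  set h := homogeneousComponent M q with hh
  have hl : (q - h).totalDegree < M := by
    rw [totalDegree, Finset.sup_lt_iff (by simpa using hM)]
    intro d hd
    rw [mem_support_iff, coeff_sub, hh, coeff_homogeneousComponent] at hd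
    have h1 : d.degree ≠ M := by
      intro h0
      rw [if_pos h0, sub_self] at hd
      exact hd rfl
    rw [if_neg h1, sub_zero] at hd
    have h2 : d.degree ≤ q.totalDegree := le_totalDegree (mem_support_iff.2 hd)
    exact lt_of_le_of_ne (h2.trans hq) h1
  have hhd : h.totalDegree ≤ M := (homogeneousComponent_isHomogeneous M q).totalDegree_le
  have h1 : q ^ 2 = h ^ 2 + (q - h) * (h + q) := by ring
  have h2 : ((q - h) * (h + q)).totalDegree < 2 * M := by
    refine (totalDegree_mul _ _).trans_lt ?_
    have h3 : (h + q).totalDegree ≤ M := (totalDegree_add _ _).trans (max_le hhd hq)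
    omega
  have h4 : h ^ 2 ∈ homogeneousSubmodule (Fin v) ℝ (2 * M) := by
    rw [mem_homogeneousSubmodule]
    have h5 := (homogeneousComponent_isHomogeneous M q).pow 2
    rwa [mul_comm] at h5
  rw [h1, map_add, homogeneousComponent_eq_zero _ _ h2, add_zero, homogeneousComponent_of_mem h4,
    if_pos rfl]

theorem t_D : S_D := by
  intro v r m q hq i0
  by_contra hcon
  push Not at hcon
  set M := Finset.univ.sup (fun i => (q i).totalDegree) with hM
  have hle : ∀ i, (q i).totalDegree ≤ M := fun i =>
    Finset.le_sup (f := fun i => (q i).totalDegree) (Finset.mem_univ i)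
  have hmM : m < M := hcon.trans_le (hle i0)
  have hM0 : 0 < M := (Nat.zero_le m).trans_lt hmM
  obtain ⟨i1, -, hi1⟩ := Finset.exists_mem_eq_sup (Finset.univ : Finset (Fin r)) ⟨i0, Finset.mem_univ _⟩
    (fun i => (q i).totalDegree)
  rw [← hM] at hi1
  have h1 : ∑ i, (homogeneousComponent M (q i)) ^ 2 = 0 := by
    rw [← homogeneousComponent_eq_zero (2 * M) (∑ i, q i ^ 2) (hq.trans_lt (by omega)), map_sum]
    exact Finset.sum_congr rfl fun i _ => (comp_sq hM0 (q i) (hle i)).symm
  have h2 : homogeneousComponent M (q i1) = 0 := by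
    apply MvPolynomial.funext
    intro x
    have h3 := congrArg (eval x) h1
    rw [map_sum, map_zero] at h3
    have h4 := (Finset.sum_eq_zero_iff_of_nonneg (fun i _ => by
      rw [map_pow]
      exact sq_nonneg _)).1 h3 i1 (Finset.mem_univ i1)
    rw [map_pow] at h4
    rw [map_zero]
    exact pow_eq_zero_iff (two_ne_zero) |>.1 h4
  have h5 : q i1 ≠ 0 := by
    intro h0
    rw [h0, totalDegree_zero] at hi1
    omega
  obtain ⟨d, hd, hd'⟩ := Finset.exists_mem_eq_sup (q i1).support (support_nonempty.2 h5)
    (fun s => s.sum fun _ e => e)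
  have h6 : d.degree = M := hd'.symm.trans hi1.symm
  have h7 := congrArg (coeff d) h2
  rw [coeff_homogeneousComponent, if_pos h6, coeff_zero] at h7
  exact (mem_support_iff.1 hd) h7

end Run7.h642.PS
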